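import Pool.Agent.H7.DL.First
import Pool.Agent.H77.DP.Second
import Pool.Agent.H60.DL.Code
import Pool.Agent.H41.DL.Comp
import Pool.Agent.DL.P.Rows

/-!
# DELTA (MP_d362fb_lc): Theorem H (assembly)

For every sequence of dense sets of conditions there is a legal promise all of whose events at `m`
are in the `m`-th set.
-/

set_option autoImplicit false

namespace Pool.Agent.DL.P

open H5.DL

/-! ### countable predense sets -/

theorem stronger_rfl (p : Pos) : Stronger p p := Pool.Agent.H84.DL.stronger_refl p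

/-- inside a dense set there is a countable set of conditions such that every condition is
compatible with one of them -/
theorem exists_predense {W : Set Pos} (hd : ∀ p, ∃ q ∈ W, Stronger q p) :
    ∃ A : Set Pos, A.Countable ∧ A ⊆ W ∧ ∀ p, ∃ a ∈ A, Compat p a := by
  let Ant : Set (Set Pos) := {A | A ⊆ W ∧ ∀ r ∈ A, ∀ r' ∈ A, r ≠ r' → ¬ Compat r r'}
  obtain ⟨A, hA⟩ : ∃ A, Maximal (fun A => A ∈ Ant) A := by
    refine zorn_subset Ant ?_
    intro c hc hch
    refine ⟨⋃₀ c, ⟨Set.sUnion_subset fun A hA => (hc hA).1, ?_⟩,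
      fun s hs => Set.subset_sUnion_of_mem hs⟩
    rintro r ⟨A, hA, hr⟩ r' ⟨A', hA', hr'⟩ hne
    rcases hch.total hA hA' with h | h
    · exact (hc hA').2 r (h hr) r' hr' hne
    · exact (hc hA).2 r hr r' (h hr') hne
  refine ⟨A, ccc Pool.Agent.H41.DL.glue_all A hA.1.2, hA.1.1, fun p => ?_⟩
  obtain ⟨q, hq, hqp⟩ := hd p
  by_cases hqA : ∃ a ∈ A, Compat q a
  · obtain ⟨a, ha, s, hs1, hs2⟩ := hqA
    exact ⟨a, ha, s, Pool.Agent.H84.DL.stronger_trans hs1 hqp, hs2⟩
  · exfalso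
    push Not at hqA
    have hins : insert q A ∈ Ant := by
      refine ⟨Set.insert_subset hq hA.1.1, ?_⟩
      rintro r (rfl | hr) r' (rfl | hr') hne
      · exact absurd rfl hne
      · exact hqA r' hr'
      · rintro ⟨s, h1, h2⟩
        exact hqA r hr ⟨s, h2, h1⟩
      · exact hA.1.2 r hr r' hr' hne
    have hqA' : q ∈ A := hA.2 hins (Set.subset_insert q A) (Set.mem_insert q A)
    exact hqA q hqA' ⟨q, stronger_rfl q, stronger_rfl q⟩

/-! ### the contents of a condition are countable -/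

/-- the nodes which occur in a system -/
def Sys.nS (e : Sys Prom) : Set Node :=
  (⋃ j : ℕ, {x | .nd x ∈ e.X j}) ∪ ⋃ p : ℕ, ⋃ q : ℕ, (e.Z p q).N

/-- the promises which occur in a system -/
def Sys.qS (e : Sys Prom) : Set Prom :=
  (⋃ j : ℕ, {φ | .pr φ ∈ e.X j}) ∪ ⋃ p : ℕ, ⋃ q : ℕ, (e.Z p q).Q

/-- the labels which occur in the frames of a system -/
def Sys.lS (e : Sys Prom) : Set D := ⋃ p : ℕ, ⋃ q : ℕ, (e.Z p q).L

theorem finite_X {Lg : Prom → Prop} {e : Sys Prom} (h : Valid Lg e) (j : ℕ) :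
    (e.X j).Finite := by
  by_cases hj : j ∈ e.J
  · exact (h.val j hj).fin
  · rw [h.nX j hj]; exact Set.finite_empty

theorem frame_countable {Lg : Prom → Prop} {e : Sys Prom} (h : Valid Lg e) (p q : ℕ) :
    (e.Z p q).N.Countable ∧ (e.Z p q).Q.Countable ∧ (e.Z p q).L.Countable := by
  by_cases hE : e.E p q
  · exact ⟨(h.good p q hE).cN, (h.good p q hE).cQ, (h.good p q hE).cL⟩
  · rw [h.nZ p q hE]
    exact ⟨Set.countable_empty, Set.countable_empty, Set.countable_empty⟩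

theorem nS_countable {Lg : Prom → Prop} {e : Sys Prom} (h : Valid Lg e) : e.nS.Countable := by
  refine Set.Countable.union (Set.countable_iUnion fun j => ?_)
    (Set.countable_iUnion fun p => Set.countable_iUnion fun q => (frame_countable h p q).1)
  exact ((finite_X h j).preimage
    (Function.Injective.injOn fun a b h => Fact.nd.inj h)).countable

theorem qS_countable {Lg : Prom → Prop} {e : Sys Prom} (h : Valid Lg e) : e.qS.Countable := by
  refine Set.Countable.union (Set.countable_iUnion fun j => ?_)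
    (Set.countable_iUnion fun p => Set.countable_iUnion fun q => (frame_countable h p q).2.1)
  exact ((finite_X h j).preimage
    (Function.Injective.injOn fun a b h => Fact.pr.inj h)).countable

theorem lS_countable {Lg : Prom → Prop} {e : Sys Prom} (h : Valid Lg e) : e.lS.Countable :=
  Set.countable_iUnion fun p => Set.countable_iUnion fun q => (frame_countable h p q).2.2

theorem contIn_of_subset {Lg : Prom → Prop} {e : Sys Prom} (h : Valid Lg e) {Z : Fr Prom}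
    (h1 : e.nS ⊆ Z.N) (h2 : e.qS ⊆ Z.Q) (h3 : e.lS ⊆ Z.L) : ContIn e Z := by
  constructor
  · intro j f hf
    have hj : j ∈ e.J := by
      by_contra hj
      rw [h.nX j hj] at hf
      exact hf
    have hV := h.val j hj
    have hx : ∀ x, .nd x ∈ e.X j → x ∈ Z.N := fun x hx =>
      h1 (Or.inl (Set.mem_iUnion.mpr ⟨j, hx⟩))
    have hq : ∀ φ, .pr φ ∈ e.X j → φ ∈ Z.Q := fun φ hφ =>
      h2 (Or.inl (Set.mem_iUnion.mpr ⟨j, hφ⟩))
    cases f with
    | nd x => exact hx x hf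
    | it x m v => exact hx x (hV.blx x m (hV.itb x m v hf).1)
    | bl x m => exact hx x (hV.blx x m hf)
    | ds x y => exact ⟨hx x (hV.dsx x y hf).1, hx y (hV.dsx x y hf).2⟩
    | pr φ => exact hq φ hf
    | rl φ m => exact hq φ (hV.rlx φ m hf)
  · intro p q
    refine ⟨fun x hx => h1 (Or.inr ?_), fun x hx => h2 (Or.inr ?_), fun x hx => h3 ?_⟩
    · exact Set.mem_iUnion.mpr ⟨p, Set.mem_iUnion.mpr ⟨q, hx⟩⟩
    · exact Set.mem_iUnion.mpr ⟨p, Set.mem_iUnion.mpr ⟨q, hx⟩⟩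
    · exact Set.mem_iUnion.mpr ⟨p, Set.mem_iUnion.mpr ⟨q, hx⟩⟩

/-! ### Theorem H -/

theorem steps_rt {Lg : Prom → Prop} {r r' : Sys Prom} (h : Steps Lg r r') : r'.rt = r.rt := by
  induction h with
  | refl => rfl
  | tail _ hs ih => exact hs.mono.rt.trans ih

/-- Theorem H of note 5711 -/
theorem lemH_7 : LemH := by
  intro W hW hd
  choose A hAc hAW hApd using fun m => exists_predense (hd m)
  -- bounds of the levels
  have hbd : ∀ e : Pos, ∀ j : ℕ, ∃ b : D, j ∈ e.1.J → j ≠ e.1.rt → e.1.K j ⊆ dn b := by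
    intro e j
    by_cases h : j ∈ e.1.J ∧ j ≠ e.1.rt
    · obtain ⟨b, hb⟩ := e.2.bdd j h.1 h.2
      exact ⟨b, fun _ _ => hb⟩
    · obtain ⟨a⟩ := nonempty_W1
      obtain ⟨b⟩ := nonempty_W2
      exact ⟨(a, b), fun h1 h2 => absurd ⟨h1, h2⟩ h⟩
  choose bd hbd using hbd
  obtain ⟨Z, k, c, nd, lb, hZ, hN, hQ, hL, hc, hnd, hlb, hk, hfree⟩ :=
    exists_good_enum (⋃ m, ⋃ a ∈ A m, a.1.nS) (⋃ m, ⋃ a ∈ A m, a.1.qS)
      (⋃ m, ⋃ a ∈ A m, (a.1.lS ∪ Set.range (bd a)))
      (Set.countable_iUnion fun m => (hAc m).biUnion fun a _ => nS_countable a.2.val)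
      (Set.countable_iUnion fun m => (hAc m).biUnion fun a _ => qS_countable a.2.val)
      (Set.countable_iUnion fun m => (hAc m).biUnion fun a _ =>
        (lS_countable a.2.val).union (Set.countable_range _))
  have hZr : (⟨Set.range nd, Set.range c, Set.range lb⟩ : Fr Prom) = Z := by
    rw [hc, hnd, hlb]
  have haZ : ∀ m, ∀ a ∈ A m, ContIn a.1 Z ∧ ∀ j ∈ a.1.J, j ≠ a.1.rt → a.1.K j ⊆ dn k := by
    intro m a ha
    refine ⟨contIn_of_subset a.2.val ?_ ?_ ?_, fun j hj hjr => (hbd a j hj hjr).trans ?_⟩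
    · exact fun x hx => hN (Set.mem_iUnion.mpr ⟨m, Set.mem_biUnion ha hx⟩)
    · exact fun x hx => hQ (Set.mem_iUnion.mpr ⟨m, Set.mem_biUnion ha hx⟩)
    · exact fun x hx => hL (Set.mem_iUnion.mpr ⟨m, Set.mem_biUnion ha (Or.inl hx)⟩)
    · intro l hl
      exact Ll.trans hl (hk _ (hL (Set.mem_iUnion.mpr
        ⟨m, Set.mem_biUnion ha (Or.inr ⟨j, rfl⟩)⟩)))
  let G : ℕ → Sys Prom → Prop := fun m e => ∃ h : IsCond e,
    (∃ a ∈ A m, Stronger ⟨e, h⟩ a) ∧ ∀ j ∈ e.J, j ≠ e.rt → e.K j ⊆ dn k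
  let φ : Prom := Pool.Agent.H60.DL.mkP k c nd lb G
  have hev : ∀ m e, Ev φ m e ↔ ContIn e Z ∧ G m e := by
    intro m e
    rw [← hZr]
    exact Pool.Agent.H60.DL.ev_mkP
  refine ⟨φ, (legal_iff φ).2 ⟨⟨Z, hZ, hk, hfree, ?_⟩, ?_⟩, ?_⟩
  · -- the events are allowed
    intro m e he
    obtain ⟨h1, h2, -, h3⟩ := (hev m e).1 he
    refine ⟨⟨?_, h2.top, h3⟩, h1⟩
    refine { h2.val with val := fun j hj => ?_ }
    refine (h2.val.val j hj).mono fun ψ hψ h4 h5 => ⟨⟨?_, h4⟩, h5⟩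
    exact hk _ (lab_in_frame hZ (h1.X j _ hψ))
  · -- density
    intro r hr hrt hb m
    obtain ⟨i0, hi0⟩ : ∃ i0, i0 ∉ r.J := hr.fin.exists_notMem
    have hcond : IsCond (mon r i0 Z Set.univ i0) := by
      refine ⟨mon_valid hr hi0 hZ isLowerSet_univ (fun l hl => ?_) (fun ψ h => h.2)
        (Or.inl rfl), mon_K_self _ _ _ _ _, fun j hj hji => ⟨k, ?_⟩⟩
      · rw [hrt]
        exact ⟨fun _ => trivial, fun _ => hk l hl⟩
      · have hji' : j ≠ i0 := hji
        rw [mon_K_of_ne _ _ _ _ _ hji']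
        exact hb j (hj.resolve_left hji')
    obtain ⟨a, ha, s, ⟨σ, hσ⟩, ⟨τ, hτ⟩⟩ := hApd m ⟨_, hcond⟩
    obtain ⟨haZ1, haZ2⟩ := haZ m a ha
    -- first use of Lemma R
    obtain ⟨y, t, hy0, hyt, hys⟩ := exists_seq hτ
    have hs : IsSeq Legal y t := ⟨by rw [hy0]; exact a.2.val, hys⟩
    obtain ⟨ev, rho, hj⟩ := exists_just hs
    obtain ⟨f1, f2, f3, f4, f5⟩ := first_use hs hj (by rw [hy0]; exact a.2) hZ hk
      (by rw [hy0]; exact haZ1) (by rw [hy0]; exact haZ2)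
    set e := (y t).res (keptFam y t ev rho (fun _ => False)) with he
    have hG : G m e := by
      refine ⟨f2, ⟨a, ha, 1, ?_⟩, f3⟩
      rw [← hy0]
      exact f4
    -- second use of Lemma R
    have hqrt : (s.1.ren σ).rt = i0 := steps_rt hσ
    have hqX : (s.1.ren σ).X i0 = s.1.X s.1.rt := by
      rw [← hqrt]
      show s.1.X (σ.symm (σ s.1.rt)) = s.1.X s.1.rt
      rw [Equiv.symm_apply_apply]
    have hyX : (y t).X (y t).rt = s.1.X s.1.rt := by
      rw [hyt]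
      show s.1.X (τ.symm (τ s.1.rt)) = s.1.X s.1.rt
      rw [Equiv.symm_apply_apply]
    have hV := f2.val.val _ f2.val.rt
    obtain ⟨r', g1, g2, g3⟩ := second_use hZ hk hr hrt hb hi0 hσ (e.X e.rt)
      (fun f hf => by rw [hqX, ← hyX]; exact hf.1)
      (fun f hf => f1.X _ f hf) (fun f hf => hV.supp hf)
      (fun x m v hx hi => ⟨by rw [hqX, ← hyX] at hi; exact hi, hx.2.1, hx.2.2⟩)
      (fun ψ m hx hi => ⟨by rw [hqX, ← hyX] at hi; exact hi, hx.2.1, hx.2.2⟩)
    refine ⟨r', e, g1, (hev m e).2 ⟨f1, hG⟩, ?_, g3⟩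
    rw [g2, f5, hyt]
    rfl
  · -- the events are in `W m`
    intro m e he
    obtain ⟨-, h2, ⟨a, ha, h4⟩, -⟩ := (hev m e).1 he
    exact ⟨h2, hW m a ⟨e, h2⟩ (hAW m ha) h4⟩

end Pool.Agent.DL.P
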