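import Pool.Agent.DL.P.Kept

/-!
# DELTA (MP_d362fb_lc), row H-g: the first use of Lemma R in Theorem H

A condition `r 0` with everything inside the good frame `Z`; the kept part (without target) of a
sequence of steps starting at `r 0` is again inside `Z`.
-/

set_option autoImplicit false

namespace Pool.Agent.DL.P

open H5.DL

/-- the frame of an edge between kept components -/
theorem first_res_Z {κ : Fam} {r : Sys Prom} {p q : ℕ} (hp : κ.c p) (hq : κ.c q) :
    (r.res κ).Z p q = r.Z p q := by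
  apply Fr.ext
  · exact Set.ext fun x => ⟨fun h => h.1, fun h => ⟨h, hp, hq⟩⟩
  · exact Set.ext fun x => ⟨fun h => h.1, fun h => ⟨h, hp, hq⟩⟩
  · exact Set.ext fun x => ⟨fun h => h.1, fun h => ⟨h, hp, hq⟩⟩

theorem first_res_Z_not {κ : Fam} {r : Sys Prom} {p q : ℕ} (h : ¬ (κ.c p ∧ κ.c q)) :
    (r.res κ).Z p q = Fr.emp := by
  apply Fr.ext
  · exact Set.ext fun x => ⟨fun h' => (h h'.2).elim, fun h' => h'.elim⟩
  · exact Set.ext fun x => ⟨fun h' => (h h'.2).elim, fun h' => h'.elim⟩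
  · exact Set.ext fun x => ⟨fun h' => (h h'.2).elim, fun h' => h'.elim⟩

theorem Fr.Le.trans {Z1 Z2 Z3 : Fr Prom} (h : Fr.Le Z1 Z2) (h' : Fr.Le Z2 Z3) : Fr.Le Z1 Z3 :=
  ⟨h.1.trans h'.1, h.2.1.trans h'.2.1, h.2.2.trans h'.2.2⟩

theorem Fr.Le.has {Z1 Z2 : Fr Prom} (h : Fr.Le Z1 Z2) {f : Fact Prom} (hf : Z1.Has f) :
    Z2.Has f := by
  cases f with
  | nd x => exact h.1 hf
  | it x m v => exact h.1 hf
  | bl x m => exact h.1 hf
  | ds x y => exact ⟨h.1 hf.1, h.1 hf.2⟩
  | pr φ => exact h.2.1 hf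
  | rl φ m => exact h.2.1 hf

theorem ContIn.mono {e : Sys Prom} {Z1 Z2 : Fr Prom} (h : ContIn e Z1) (h' : Fr.Le Z1 Z2) :
    ContIn e Z2 :=
  ⟨fun j f hf => h'.has (h.X j f hf), fun p q => (h.Z p q).trans h'⟩

theorem first_lab_mem {Z : Fr Prom} {φ : Prom} (h : φ.In Z) : φ.lab ∈ Z.L := by
  cases φ with
  | nil k => exact h
  | mk k c nd lb R => exact h.1

/-- the events of a promise in a good frame are in the frame -/
theorem Ev.contIn {φ : Prom} {m : ℕ} {e : Sys Prom} (he : Ev φ m e) {Z : Fr Prom}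
    (hφ : φ.In Z) : ContIn e Z := by
  cases φ with
  | nil k => exact he.elim
  | mk k c nd lb R =>
    refine he.1.mono ⟨?_, ?_, ?_⟩
    · rintro x ⟨i, rfl⟩
      exact (hφ.2 i).2.1
    · rintro x ⟨i, rfl⟩
      exact (hφ.2 i).1
    · rintro x ⟨i, rfl⟩
      exact (hφ.2 i).2.2

section

variable {r : ℕ → Sys Prom} {t : ℕ} {ev : ℕ → ℕ → Prom → ℕ → Sys Prom}
  {rho : ℕ → ℕ → Prom → ℕ → ℕ → ℕ}

theorem rootT_false (r : Sys Prom) : RootT r (fun _ => False) :=
  ⟨fun _ h => h, fun _ _ h => h.elim, fun _ _ h => h.elim⟩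

/-- kept nodes and promises are in `Z` -/
theorem kept_inZ (hj : JustBy r t ev rho) {Z : Fr Prom} (hZ : Good Z) (hc : ContIn (r 0) Z) :
    ∀ i, Kept r t ev rho (fun _ => False) i → match i with
      | .c _ => True
      | .x _ x => x ∈ Z.N
      | .q _ φ => φ ∈ Z.Q := by
  intro i hi
  induction hi with
  | base_c j h => trivial
  | base_x j x h => exact hc.X j _ h
  | base_q j φ h => exact hc.X j _ h
  | tgt i h => exact h.elim
  | ev_c i j φ m a hr _ _ ha _ _ => trivial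
  | ev_x i j φ m a x hr h1 h2 ha hx _ ih =>
    exact ((hj i j φ m hr).1.contIn (hZ.z3 φ ih)).X a _ hx
  | ev_q i j φ m a ψ hr h1 h2 ha hx _ ih =>
    exact ((hj i j φ m hr).1.contIn (hZ.z3 φ ih)).X a _ hx
  | sh_x p q x hE hp hq hx hk _ _ ih => exact ih
  | sh_q p q φ hE hp hq hx hk _ _ ih => exact ih

/-- row H-g -/
theorem first_use (hs : IsSeq Legal r t) (hj : JustBy r t ev rho) (ha : IsCond (r 0))
    {Z : Fr Prom} (hZ : Good Z) {k : D} (hL : ∀ d ∈ Z.L, Ll d k) (hc : ContIn (r 0) Z)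
    (hlev : ∀ j ∈ (r 0).J, j ≠ (r 0).rt → (r 0).K j ⊆ dn k) :
    ContIn ((r t).res (keptFam r t ev rho (fun _ => False))) Z ∧
    IsCond ((r t).res (keptFam r t ev rho (fun _ => False))) ∧
    (∀ j ∈ ((r t).res (keptFam r t ev rho (fun _ => False))).J, j ≠ (r t).rt →
      ((r t).res (keptFam r t ev rho (fun _ => False))).K j ⊆ dn k) ∧
    Steps Legal (r 0) ((r t).res (keptFam r t ev rho (fun _ => False))) ∧
    ((r t).res (keptFam r t ev rho (fun _ => False))).n = (r t).n := by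
  have hT := rootT_false (r t)
  have hid : ∀ φ, Legal φ → Legal φ := fun _ h => h
  have hseq := kept_seq (T := fun _ => False) hid hs hj
  have hz := kept_zero (ev := ev) (rho := rho) (T := fun _ => False) hs
  have hM := hs.mono 0 t (Nat.zero_le t) le_rfl
  have hin := kept_inZ hj hZ hc
  have hvt := hs.val t le_rfl
  have hlev' : ∀ j, Kept r t ev rho (fun _ => False) (.c j) → j ≠ (r t).rt →
      (r t).K j ⊆ dn k := by
    intro j hk hjr
    rcases kept_origin hj hT j hk with h1 | ⟨i, j', φ, m, a, hr, h1, h2, ha, har, rfl⟩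
    · rw [hM.K j h1]
      exact hlev j h1 (by rw [← hM.rt]; exact hjr)
    · obtain ⟨he, hemb⟩ := hj i j' φ m hr
      rw [(hs.mono (i + 1) t hr.lt le_rfl).K _ (hemb.J a ha), hemb.K a ha har]
      have hφ : φ ∈ Z.Q := hin _ h2
      have hlab : Ll φ.lab k := hL _ (first_lab_mem (hZ.z3 φ hφ))
      exact ((okEv (hr.leg hs) he).lev a ha har).trans fun l hl => Ll.trans hl hlab
  have hval : Valid Legal ((r t).res (keptFam r t ev rho (fun _ => False))) :=
    hseq.val t le_rfl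
  refine ⟨⟨?_, ?_⟩, ⟨hval, ?_, ?_⟩, fun j hj' => hlev' j hj'.2, ?_, rfl⟩
  · rintro j f ⟨hf, hcj, hk⟩
    cases f with
    | nd x => exact hin _ hk
    | it x m v => exact hin _ hk
    | bl x m => exact hin _ hk
    | ds x y => exact ⟨hin _ hk.1, hin _ hk.2⟩
    | pr φ => exact hin _ hk
    | rl φ m => exact hin _ hk
  · intro p q
    by_cases hpq : Kept r t ev rho (fun _ => False) (.c p) ∧
        Kept r t ev rho (fun _ => False) (.c q)
    · rw [first_res_Z hpq.1 hpq.2]
      by_cases hE : (r t).E p q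
      · rcases kept_edge hid hs hj hT p q hE hpq.1 hpq.2 with
          ⟨h1, h2⟩ | ⟨i, j, φ, m, a, b, hr, h1, h2, h3, -, -, h6⟩
        · rw [hM.Z p q ((hM.E p h1 q h2).1 hE)]
          exact hc.Z p q
        · rw [h6]
          have hφ : φ ∈ Z.Q := hin _ h2
          exact ((hj i j φ m hr).1.contIn (hZ.z3 φ hφ)).Z a b
      · rw [hvt.nZ p q hE]
        exact ⟨fun _ h => h.elim, fun _ h => h.elim, fun _ h => h.elim⟩
    · rw [first_res_Z_not hpq]
      exact ⟨fun _ h => h.elim, fun _ h => h.elim, fun _ h => h.elim⟩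
  · show (r t).K (r t).rt = Set.univ
    rw [hM.rt, hM.K _ hs.v0.rt]
    exact ha.top
  · exact fun j hj' hjr => ⟨k, hlev' j hj'.2 hjr⟩
  · have h1 := chain_of_seq (R := Step Legal)
      (fun i => (r i).res (keptFam r t ev rho (fun _ => False))) t hseq.st
    simp only [hz] at h1
    exact h1

end

end Pool.Agent.DL.P
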