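import Pool.Agent.DL.P.Defs

/-!
# DELTA (MP_d362fb_lc): closure of frames, the label of a promise, cones inside a frame

Rows H-a and H-b of Theorem H.
-/

set_option autoImplicit false

namespace Pool.Agent.DL.P

open H5.DL

/-! ## uniqueness of `Br` and `Fst` -/

theorem Br.unique {x y : Node} {d d' : D} (h : Br x y d) (h' : Br x y d') : d = d' := by
  obtain ⟨ν, h1, h2, h3⟩ := h
  obtain ⟨ν', h1', h2', h3'⟩ := h'
  have e : ν = ν' := by
    rcases lt_trichotomy ν ν' with hlt | he | hlt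
    · exact absurd ((h1' ν hlt).symm.trans h2) h3
    · exact he
    · exact absurd ((h1 ν' hlt).symm.trans h2') h3'
  subst e
  exact Option.some_injective _ (h2.symm.trans h2')

theorem Fst.unique {b : Node} {l d d' : D} (h : Fst b l d) (h' : Fst b l d') : d = d' := by
  obtain ⟨ν, h1, h2, h3⟩ := h
  obtain ⟨ν', h1', h2', h3'⟩ := h'
  have e : ν = ν' := by
    rcases lt_trichotomy ν ν' with hlt | he | hlt
    · exact absurd h2 (h3' ν hlt d h1)
    · exact he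
    · exact absurd h2' (h3 ν' hlt d' h1')
  subst e
  exact Option.some_injective _ (h1.symm.trans h1')

/-! ## closure of frames -/

/-- the enumerated promises -/
def Prom.cS : Prom → Set Prom
  | .nil _ => ∅
  | .mk _ c _ _ _ => Set.range c

/-- the enumerated nodes -/
def Prom.nS : Prom → Set Node
  | .nil _ => ∅
  | .mk _ _ nd _ _ => Set.range nd

/-- the label and the enumerated labels -/
def Prom.lS : Prom → Set D
  | .nil k => {k}
  | .mk k _ _ lb _ => insert k (Set.range lb)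

theorem Prom.cS_countable (φ : Prom) : φ.cS.Countable := by
  cases φ with
  | nil k => exact Set.countable_empty
  | mk k c nd lb R => exact Set.countable_range c

theorem Prom.nS_countable (φ : Prom) : φ.nS.Countable := by
  cases φ with
  | nil k => exact Set.countable_empty
  | mk k c nd lb R => exact Set.countable_range nd

theorem Prom.lS_countable (φ : Prom) : φ.lS.Countable := by
  cases φ with
  | nil k => exact Set.countable_singleton k
  | mk k c nd lb R => exact (Set.countable_range lb).insert k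

theorem Prom.in_of_subset {Z : Fr Prom} (φ : Prom) (h1 : φ.cS ⊆ Z.Q) (h2 : φ.nS ⊆ Z.N)
    (h3 : φ.lS ⊆ Z.L) : φ.In Z := by
  cases φ with
  | nil k => exact h3 rfl
  | mk k c nd lb R =>
    exact ⟨h3 (Or.inl rfl), fun i => ⟨h1 ⟨i, rfl⟩, h2 ⟨i, rfl⟩, h3 (Or.inr ⟨i, rfl⟩)⟩⟩

/-- one round of closure -/
def Fr.clo (Z : Fr Prom) : Fr Prom where
  N := Z.N ∪ ⋃ φ ∈ Z.Q, φ.nS
  Q := Z.Q ∪ ⋃ φ ∈ Z.Q, φ.cS
  L := Z.L ∪ ((⋃ φ ∈ Z.Q, φ.lS) ∪ ((⋃ b ∈ Z.N, ⋃ b' ∈ Z.N, {d | Br b b' d}) ∪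
    ⋃ b ∈ Z.N, ⋃ l ∈ Z.L, {d | Fst b l d}))

/-- iterated closure -/
def Fr.it (Z : Fr Prom) : ℕ → Fr Prom
  | 0 => Z
  | i + 1 => (Fr.it Z i).clo

theorem Fr.it_countable (Z : Fr Prom) (h1 : Z.N.Countable) (h2 : Z.Q.Countable)
    (h3 : Z.L.Countable) :
    ∀ i, (Z.it i).N.Countable ∧ (Z.it i).Q.Countable ∧ (Z.it i).L.Countable := by
  intro i
  induction i with
  | zero => exact ⟨h1, h2, h3⟩
  | succ i ih =>
    obtain ⟨i1, i2, i3⟩ := ih
    refine ⟨i1.union (i2.biUnion fun φ _ => φ.nS_countable),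
      i2.union (i2.biUnion fun φ _ => φ.cS_countable),
      i3.union ((i2.biUnion fun φ _ => φ.lS_countable).union (Set.Countable.union ?_ ?_))⟩
    · exact i1.biUnion fun b _ => i1.biUnion fun b' _ =>
        Set.Subsingleton.countable fun d hd d' hd' => Br.unique hd hd'
    · exact i1.biUnion fun b _ => i3.biUnion fun l _ =>
        Set.Subsingleton.countable fun d hd d' hd' => Fst.unique hd hd'

theorem Fr.it_mono (Z : Fr Prom) {i j : ℕ} (h : i ≤ j) : Fr.Le (Z.it i) (Z.it j) := by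
  induction h with
  | refl => exact ⟨subset_rfl, subset_rfl, subset_rfl⟩
  | step _ ih =>
    exact ⟨ih.1.trans Set.subset_union_left, ih.2.1.trans Set.subset_union_left,
      ih.2.2.trans Set.subset_union_left⟩

/-- the closure -/
def Fr.cl (Z : Fr Prom) : Fr Prom := ⟨⋃ i, (Z.it i).N, ⋃ i, (Z.it i).Q, ⋃ i, (Z.it i).L⟩

theorem Fr.le_cl (Z : Fr Prom) : Fr.Le Z Z.cl :=
  ⟨Set.subset_iUnion (fun i => (Z.it i).N) 0, Set.subset_iUnion (fun i => (Z.it i).Q) 0,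
    Set.subset_iUnion (fun i => (Z.it i).L) 0⟩

theorem Fr.cl_good (Z : Fr Prom) (h1 : Z.N.Countable) (h2 : Z.Q.Countable) (h3 : Z.L.Countable) :
    Good Z.cl where
  cN := Set.countable_iUnion fun i => (Z.it_countable h1 h2 h3 i).1
  cQ := Set.countable_iUnion fun i => (Z.it_countable h1 h2 h3 i).2.1
  cL := Set.countable_iUnion fun i => (Z.it_countable h1 h2 h3 i).2.2
  z1 := by
    intro b hb b' hb' d hd
    obtain ⟨i, hi⟩ := Set.mem_iUnion.mp hb
    obtain ⟨j, hj⟩ := Set.mem_iUnion.mp hb'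
    have h1 := (Z.it_mono (le_max_left i j)).1 hi
    have h2 := (Z.it_mono (le_max_right i j)).1 hj
    refine Set.mem_iUnion.mpr ⟨max i j + 1, Or.inr (Or.inr (Or.inl ?_))⟩
    exact Set.mem_biUnion h1 (Set.mem_biUnion h2 hd)
  z2 := by
    intro b hb l hl d hd
    obtain ⟨i, hi⟩ := Set.mem_iUnion.mp hb
    obtain ⟨j, hj⟩ := Set.mem_iUnion.mp hl
    have h1 := (Z.it_mono (le_max_left i j)).1 hi
    have h2 := (Z.it_mono (le_max_right i j)).2.2 hj
    refine Set.mem_iUnion.mpr ⟨max i j + 1, Or.inr (Or.inr (Or.inr ?_))⟩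
    exact Set.mem_biUnion h1 (Set.mem_biUnion h2 hd)
  z3 := by
    intro φ hφ
    obtain ⟨i, hi⟩ := Set.mem_iUnion.mp hφ
    refine φ.in_of_subset ?_ ?_ ?_
    · intro ψ hψ
      exact Set.mem_iUnion.mpr ⟨i + 1, Or.inr (Set.mem_biUnion hi hψ)⟩
    · intro ψ hψ
      exact Set.mem_iUnion.mpr ⟨i + 1, Or.inr (Set.mem_biUnion hi hψ)⟩
    · intro ψ hψ
      exact Set.mem_iUnion.mpr ⟨i + 1, Or.inr (Or.inl (Set.mem_biUnion hi hψ))⟩

/-- every countable frame is contained in a good frame -/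
theorem exists_good (N0 : Set Node) (Q0 : Set Prom) (L0 : Set D) (h1 : N0.Countable)
    (h2 : Q0.Countable) (h3 : L0.Countable) :
    ∃ Z : Fr Prom, Good Z ∧ N0 ⊆ Z.N ∧ Q0 ⊆ Z.Q ∧ L0 ⊆ Z.L :=
  ⟨Fr.cl ⟨N0, Q0, L0⟩, Fr.cl_good _ h1 h2 h3, (Fr.le_cl ⟨N0, Q0, L0⟩).1,
    (Fr.le_cl ⟨N0, Q0, L0⟩).2.1, (Fr.le_cl ⟨N0, Q0, L0⟩).2.2⟩

theorem nonempty_W (i : Ordinal) (c : Cardinal) (h : c = Cardinal.aleph i) :
    Nonempty c.ord.ToType := by
  have h1 : Cardinal.mk c.ord.ToType = c := Cardinal.mk_ord_toType c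
  rw [← Cardinal.mk_ne_zero_iff, h1, h]
  exact (Cardinal.aleph_pos i).ne'

theorem nonempty_W1 : Nonempty W1 := nonempty_W 1 _ rfl

theorem nonempty_W2 : Nonempty W2 := nonempty_W 2 _ rfl

/-- a good frame with everything nonempty, enumerated, and a label above it -/
theorem exists_good_enum (N0 : Set Node) (Q0 : Set Prom) (L0 : Set D) (h1 : N0.Countable)
    (h2 : Q0.Countable) (h3 : L0.Countable) :
    ∃ (Z : Fr Prom) (k : D) (c : ℕ → Prom) (nd : ℕ → Node) (lb : ℕ → D),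
      Good Z ∧ N0 ⊆ Z.N ∧ Q0 ⊆ Z.Q ∧ L0 ⊆ Z.L ∧ Set.range c = Z.Q ∧ Set.range nd = Z.N ∧
        Set.range lb = Z.L ∧ (∀ d ∈ Z.L, Ll d k) ∧ ∀ x ∈ Z.N, x.Free k := by
  obtain ⟨a⟩ := nonempty_W1
  obtain ⟨b⟩ := nonempty_W2
  obtain ⟨Z, hZ, z1, z2, z3⟩ := exists_good (insert Nd.nil N0) (insert (.nil (a, b)) Q0)
    (insert (a, b) L0) (h1.insert _) (h2.insert _) (h3.insert _)
  obtain ⟨k, hk1, hk2⟩ := exists_label idx ⟨a⟩ ⟨b⟩ Z.L hZ.cL Z.N hZ.cN
  obtain ⟨c, hc⟩ := hZ.cQ.exists_eq_range ⟨_, z2 (Set.mem_insert _ _)⟩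
  obtain ⟨nd, hnd⟩ := hZ.cN.exists_eq_range ⟨_, z1 (Set.mem_insert _ _)⟩
  obtain ⟨lb, hlb⟩ := hZ.cL.exists_eq_range ⟨_, z3 (Set.mem_insert _ _)⟩
  exact ⟨Z, k, c, nd, lb, hZ, (Set.subset_insert _ _).trans z1, (Set.subset_insert _ _).trans z2,
    (Set.subset_insert _ _).trans z3, hc.symm, hnd.symm, hlb.symm, hk1, hk2⟩

/-! ## cones inside a frame -/

/-- the labels of `x` at places `≤ δ` -/
noncomputable def upto (x : Node) (δ : W2) : Node where
  f ν := if ν ≤ δ then x.f ν else none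
  dc ν μ h1 h2 := by
    by_cases hμ : μ ≤ δ
    · rw [if_pos hμ] at h2
      rw [if_pos (h1.trans hμ)]
      exact x.dc ν μ h1 h2
    · rw [if_neg hμ] at h2
      exact (h2 rfl).elim
  mo ν μ d e h1 h2 h3 := by
    by_cases hμ : μ ≤ δ
    · rw [if_pos hμ] at h3
      rw [if_pos (h1.trans hμ)] at h2
      exact x.mo ν μ d e h1 h2 h3
    · rw [if_neg hμ] at h3
      exact (Option.some_ne_none _ h3.symm).elim

theorem upto_le (x : Node) (δ : W2) : upto x δ ≤ x := by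
  intro ν d h
  by_cases hν : ν ≤ δ
  · have : (if ν ≤ δ then x.f ν else none) = some d := h
    rwa [if_pos hν] at this
  · have : (if ν ≤ δ then x.f ν else none) = some d := h
    rw [if_neg hν] at this
    exact (Option.some_ne_none _ this.symm).elim

theorem upto_apply (x : Node) {δ ν : W2} (h : ν ≤ δ) : (upto x δ).f ν = x.f ν := if_pos h

theorem upto_some {x : Node} {δ ν : W2} {d : D} (h : (upto x δ).f ν = some d) : ν ≤ δ := by
  by_contra hν
  have : (if ν ≤ δ then x.f ν else none) = some d := h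
  rw [if_neg hν] at this
  exact Option.some_ne_none _ this.symm

/-- if `s ≤ x` but not `s ≤ y` then `x` leaves `y` inside the domain of `s` -/
theorem exists_br {s x y : Node} (hx : s ≤ x) (hy : ¬ s ≤ y) :
    ∃ μ d, (∀ ρ < μ, x.f ρ = y.f ρ) ∧ x.f μ = some d ∧ y.f μ ≠ some d ∧
      ∀ ρ ≤ μ, s.f ρ = x.f ρ := by
  have h0 : ∃ ν d, s.f ν = some d ∧ y.f ν ≠ some d := by
    by_contra h
    push Not at h
    exact hy fun ν d hd => h ν d hd
  obtain ⟨ν, d, h1, h2⟩ := h0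
  have hne : {μ | x.f μ ≠ y.f μ}.Nonempty := ⟨ν, fun h => h2 (h ▸ hx ν d h1)⟩
  have wf : WellFounded ((· < ·) : W2 → W2 → Prop) := idx.wfL
  set μ := wf.min _ hne with hμ
  have hμ1 : x.f μ ≠ y.f μ := wf.min_mem _ hne
  have hμ2 : ∀ ρ < μ, x.f ρ = y.f ρ := by
    intro ρ hρ
    by_contra hh
    exact wf.not_lt_min _ hh hρ
  have hμν : μ ≤ ν := by
    by_contra hh
    push Not at hh
    exact h2 ((hμ2 ν hh) ▸ hx ν d h1)
  have hs : ∀ ρ ≤ μ, s.f ρ = x.f ρ := by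
    intro ρ hρ
    cases hh : s.f ρ with
    | none => exact absurd hh (s.dc ρ ν (hρ.trans hμν) (by rw [h1]; exact Option.some_ne_none _))
    | some e => exact (hx ρ e hh).symm
  cases he : x.f μ with
  | none =>
    exact absurd ((hs μ le_rfl).trans he)
      (s.dc μ ν hμν (by rw [h1]; exact Option.some_ne_none _))
  | some e => exact ⟨μ, e, hμ2, he, fun h => hμ1 (he.trans h.symm), hs⟩

/-- a cone of a finite set of nodes of a good frame is a `K`-cone if all labels of the frame are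
in the lower set `K` -/
theorem cone_frame {K : Set D} (hK : IsLowerSet K) {Z : Fr Prom} (hZ : Good Z) (hL : Z.L ⊆ K)
    {A C : Set Node} (hA : A.Finite) (hAZ : A ⊆ Z.N) (s : Node)
    (hC : ∀ x, x ∈ C ↔ x ∈ A ∧ s ≤ x) :
    C = ∅ ∨ ∃ s' : Node, LabIn K s' ∧ ∀ x, x ∈ C ↔ x ∈ A ∧ s' ≤ x := by
  classical
  rcases Set.eq_empty_or_nonempty C with h0 | ⟨x0, hx0⟩
  · exact Or.inl h0
  right
  obtain ⟨hx0A, hx0s⟩ := (hC x0).mp hx0
  by_cases hAC : A ⊆ C
  · refine ⟨Nd.nil, fun ν d h => (Option.some_ne_none _ h.symm).elim, fun x => ⟨fun hx =>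
      ⟨((hC x).mp hx).1, fun ν d h => (Option.some_ne_none _ h.symm).elim⟩, fun hx => hAC hx.1⟩⟩
  · obtain ⟨y0, hy0A, hy0C⟩ := Set.not_subset.mp hAC
    have hB : ∀ y : Node, ∃ μ : W2, y ∈ A → y ∉ C → ∃ d, (∀ ρ < μ, x0.f ρ = y.f ρ) ∧
        x0.f μ = some d ∧ y.f μ ≠ some d ∧ ∀ ρ ≤ μ, s.f ρ = x0.f ρ := by
      intro y
      by_cases h : y ∈ A ∧ y ∉ C
      · have hsy : ¬ s ≤ y := fun hh => h.2 ((hC y).mpr ⟨h.1, hh⟩)
        obtain ⟨μ, d, h1⟩ := exists_br hx0s hsy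
        exact ⟨μ, fun _ _ => ⟨d, h1⟩⟩
      · exact ⟨nonempty_W2.some, fun h1 h2 => absurd ⟨h1, h2⟩ h⟩
    choose μ hμ using hB
    obtain ⟨y1, hy1, hmax⟩ := Set.exists_max_image {y | y ∈ A ∧ y ∉ C} μ
      (hA.subset fun y hy => hy.1) ⟨y0, hy0A, hy0C⟩
    obtain ⟨d, h1, h2, h3, h4⟩ := hμ y1 hy1.1 hy1.2
    have hd : d ∈ K := hL (hZ.z1 x0 (hAZ hx0A) y1 (hAZ hy1.1) d ⟨μ y1, h1, h2, h3⟩)
    refine ⟨upto x0 (μ y1), ?_, fun x => ⟨fun hx => ⟨((hC x).mp hx).1, ?_⟩, fun hx => ?_⟩⟩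
    · intro ν e he
      exact hK (x0.mo ν (μ y1) e d (upto_some he) (upto_le _ _ ν e he) h2) hd
    · intro ν e he
      exact ((hC x).mp hx).2 ν e ((h4 ν (upto_some he)).trans (upto_le _ _ ν e he))
    · by_contra hxC
      obtain ⟨d', h1', h2', h3', h4'⟩ := hμ x hx.1 hxC
      have hle : μ x ≤ μ y1 := hmax x ⟨hx.1, hxC⟩
      exact h3' (hx.2 (μ x) d' ((upto_apply x0 hle).trans h2'))

theorem dn_lower (k : D) : IsLowerSet (dn k) := fun _ _ h h' => Ll.of_le h h'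

end Pool.Agent.DL.P
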